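import Pool.Agent.Helper65.BR.Goals
import Pool.Agent.Helper65.RT.Sim

/-!
# Packet BR-LSP: the machines on numbers form a family computed in linear space
-/

namespace Pool.Agent.Helper56.BR

open Pool.Agent.Helper65.LinSpace Pool.Agent.Helper78.Mpc Pool.Agent.Helper28.Ram
open Pool.Agent.Helper65.BR Finset
open Pool.Agent.Helper59.Ram (LS_CR CM_le_CR pow_ll_le)
open Pool.Agent.Helper28.Long (pow_le_CR ZL ZL_le)
open Pool.Agent.Helper65.RT (qT CT ls_qT ls_CT ls_ll)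

/-! ### Bounds -/

theorem bT_le (n T i : ℕ) : bT n T i ≤ n := (min_le_right _ _).trans (ZL_le n)

theorem ifz_z (x y : ℕ) : ifz 0 x y = x := if_pos rfl

theorem ifz_n {c : ℕ} (h : c ≠ 0) (x y : ℕ) : ifz c x y = y := if_neg h

theorem ifz_le {c x y b : ℕ} (hx : x ≤ b) (hy : y ≤ b) : ifz c x y ≤ b := by
  by_cases hc : c = 0
  · rw [hc, ifz_z]
    exact hx
  · rw [ifz_n hc]
    exact hy

theorem ifz_lt {c x y b : ℕ} (hx : x < b) (hy : y < b) : ifz c x y < b := by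
  by_cases hc : c = 0
  · rw [hc, ifz_z]
    exact hx
  · rw [ifz_n hc]
    exact hy

theorem fnN_lt (e S Λ β B a : ℕ) : fnN e S Λ β B a < 2 ^ (S + 1) := by
  unfold fnN
  by_cases ha : a = 0
  · rw [ha, ifz_z]
    positivity
  rw [ifz_n ha]
  by_cases hc : S < cntN e S Λ β B a
  · rw [lt01, if_pos hc, ifz_n one_ne_zero]
    positivity
  · rw [lt01, if_neg hc, ifz_z]
    have h1 : tab 2 (cntN e S Λ β B a)
        (fun i => univ (Nat.unpair e).2 Λ β (queryN B i a)) < 2 ^ cntN e S Λ β B a :=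
      tab_lt fun i _ => univ_lt _ _ _ _
    have h2 : 2 ^ cntN e S Λ β B a ≤ 2 ^ S := Nat.pow_le_pow_right (by norm_num) (by omega)
    rw [pow_succ]
    omega

section

variable (P : Prm)

theorem nxN_lt (q v : ℕ) : P.nxN q v < 2 ^ (P.S + 1) := by
  unfold Prm.nxN
  exact ifz_lt (ifz_lt (by positivity) (ifz_lt (by positivity) (fnN_lt _ _ _ _ _ _)))
    (capN_lt _ _)

theorem sil_succ (q i : ℕ) :
    P.sil q (i + 1) = ifz (P.stop (P.sil q i)) (P.nxN (P.sil q i) 1) (P.sil q i) := rfl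

theorem wil_succ (q x c i : ℕ) : P.wil q x c (i + 1) =
    ifz (P.stop (P.sil q i)) (P.wrN (P.sil q (i + 1)) x (P.wil q x c i)) (P.wil q x c i) := rfl

theorem sil_lt {q : ℕ} (hq : q < 2 ^ (P.S + 1)) (i : ℕ) : P.sil q i < 2 ^ (P.S + 1) := by
  induction i with
  | zero => exact hq
  | succ i ih =>
    rw [sil_succ]
    exact ifz_lt (nxN_lt P _ _) ih

theorem wil_lt {c : ℕ} (q x : ℕ) (hc : c < 2 ^ (P.H + 1)) (i : ℕ) :
    P.wil q x c i < 2 ^ (P.H + 1) := by
  induction i with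
  | zero => exact hc
  | succ i ih =>
    rw [wil_succ]
    exact ifz_lt (fnN_lt _ _ _ _ _ _) ih

theorem sil_le (q i : ℕ) : P.sil q i ≤ q + 2 ^ (P.S + 1) := by
  induction i with
  | zero => exact Nat.le_add_right _ _
  | succ i ih =>
    rw [sil_succ]
    exact ifz_le ((nxN_lt P _ _).le.trans (Nat.le_add_left _ _)) ih

theorem wil_le (q x c i : ℕ) : P.wil q x c i ≤ c + 2 ^ (P.H + 1) := by
  induction i with
  | zero => exact Nat.le_add_right _ _
  | succ i ih =>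
    rw [wil_succ]
    exact ifz_le ((fnN_lt _ _ _ _ _ _).le.trans (Nat.le_add_left _ _)) ih

theorem mach_ok (hE : 0 < P.E) (hG : 0 < P.G) : P.mach.Ok where
  ha := Nat.succ_pos _
  hE := hE
  hG := hG
  hA q := by
    show ifz (P.rdg q) 0 (P.blN q) < 2 ^ (P.Z + 1)
    exact ifz_lt (by positivity) (fnN_lt _ _ _ _ _ _)
  hN q v := sil_lt P (nxN_lt P q v) P.T
  hW q v x c := capN_lt _ _
  hq0 := sil_lt P (fnN_lt _ _ _ _ _ _) P.T
  hM0 x := wil_lt P P.s0 x (Nat.one_lt_two_pow (Nat.succ_ne_zero _)) P.T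

end

theorem two_pow_CT {x k : ℕ} (h : k ≤ 100 * (Nat.log 2 x + 1)) : 2 ^ k ≤ CT x := by
  calc 2 ^ k ≤ 2 ^ (100 * (Nat.log 2 x + 1)) := Nat.pow_le_pow_right (by norm_num) h
    _ ≤ (x + 2) ^ (2 * 100) := two_pow_log_le x 100
    _ ≤ CT x := Nat.pow_le_pow_right (by omega) (by norm_num)

/-! ### The parameters -/

section

variable {α : Type} [Ctx α]

theorem ls_ZL {n : α → ℕ} (hn : LS n) : LS (fun z => ZL (n z)) := by
  unfold ZL
  exact LS.div (LS.LW hn) (ls_ll (ls_ll hn))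

theorem ls_bT (i : ℕ) {n T : α → ℕ} (hn : LS n) (hT : LS T) : LS (fun z => bT (n z) (T z) i) := by
  unfold bT
  exact LS.min (LS.dig (LS.add hn (LS.const 2)) hT (LS.const i)) (ls_ZL hn)

theorem ls_lT {n T : α → ℕ} (hn : LS n) (hT : LS T) : LS (fun z => lT (n z) (T z)) := by
  unfold lT
  exact LS.add (LS.add (ls_bT 2 hn hT) (ls_ll hn)) (LS.const 4)

theorem ls_gT {n T : α → ℕ} (hn : LS n) (hT : LS T) : LS (fun z => gT (n z) (T z)) := by
  unfold gT
  exact LS.add (LS.sqrt (LS.div (LS.div hn (ls_lT hn hT))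
    (LS.mul (LS.const 4) (LS.add (ls_bT 1 hn hT) (LS.const 1))))) (LS.const 1)

theorem ls_kT {n T : α → ℕ} (hn : LS n) (hT : LS T) : LS (fun z => kT (n z) (T z)) := by
  unfold kT
  exact LS.div (LS.div hn (ls_lT hn hT)) (ls_gT hn hT)

theorem ls_oT {n T : α → ℕ} (hn : LS n) (hT : LS T) : LS (fun z => oT (n z) (T z)) := by
  unfold oT
  have hg := ls_gT hn hT
  have hk := ls_kT hn hT
  have hl := ls_lT hn hT
  have hb := LS.add (ls_bT 1 hn hT) (LS.const 1)
  have hq := LS.mul (LS.const 4) (ls_qT hn)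
  have hk1 := LS.add hk (LS.const 1)
  exact LS.mul (LS.le01 (LS.add (LS.mul hg (LS.mul hb hg)) (LS.mul hg hb)) hq)
    (LS.mul (LS.le01 (LS.mul hk (LS.add hg (LS.const 2))) hq)
      (LS.mul (LS.le01 (LS.mul hk1 hl) hq)
        (LS.le01 (LS.mul hk1 (LS.mul hl hg)) (LS.mul (LS.const 4) (LS.add hn (LS.const 1))))))

theorem ls_beta {x : α → ℕ} (hx : LS x) : LS (fun z => 2 ^ (2 * ll (Nat.log 2 (x z)))) :=
  LS.pow_of_le (f := fun _ => 2) (g := fun z => 2 * ll (Nat.log 2 (x z))) (LS.const 2)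
    (LS.mul (LS.const 2) (ls_ll (LS.log2 hx))) (LS_CR hx) fun z => pow_ll_le (x z)

theorem ls_pB (i : ℕ) {x T : α → ℕ} (hx : LS x) (hT : LS T) :
    LS (fun z => 2 ^ (bT (Nat.log 2 (x z)) (T z) i + 1)) := by
  refine LS.pow_of_le (f := fun _ => 2) (g := fun z => bT (Nat.log 2 (x z)) (T z) i + 1)
    (LS.const 2) (LS.add (ls_bT i (LS.log2 hx) hT) (LS.const 1)) (LS_CR hx) fun z => ?_
  have h := bT_le (Nat.log 2 (x z)) (T z) i
  exact pow_le_CR (by omega)

/-- The functions on words. -/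
theorem ls_fB (i : ℕ) {x T : α → ℕ} (hx : LS x) (hT : LS T) {d u : α → ℕ} (hd : LS d)
    (hu : LS u) :
    LS (fun z => fnN (d z) (bT (Nat.log 2 (x z)) (T z) i) (LW (Nat.log 2 (x z)))
      (2 ^ (2 * ll (Nat.log 2 (x z)))) (CR (x z)) (u z)) := by
  have hn : LS (fun z => Nat.log 2 (x z)) := LS.log2 hx
  refine LS.fnN hd (ls_bT i hn hT) (LS.LW hn) (ls_beta hx) (LS_CR hx) hu
    (LS_CR hx) (fun b => by positivity)
    (fun b => (beta_pow_le (x b)).trans (CM_le_CR (x b))) (fun b => ?_)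
  refine pow_le_CR ?_
  have h6 := bT_le (Nat.log 2 (x b)) (T b) i
  omega

theorem ls_accN {v : α → ℕ} (hv : LS v) : LS (fun z => accN (v z)) := by
  unfold accN
  exact LS.mul (LS.lt01 (LS.const 1) hv) (LS.mod hv (LS.const 2))

theorem ls_bvalN {v : α → ℕ} (hv : LS v) : LS (fun z => bvalN (v z)) := by
  unfold bvalN
  exact LS.sub hv (LS.pow_log hv)

theorem ls_lwN {v : α → ℕ} (hv : LS v) : LS (fun z => lwN (v z)) := by
  unfold lwN
  exact LS.ifz hv (LS.const 4) (LS.ifz (LS.sub hv (LS.const 1)) (LS.const 5) (LS.const 7))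

variable {e x y T p : α → ℕ}

theorem ls_adN (he : LS e) (hx : LS x) (hT : LS T) {q : α → ℕ} (hq : LS q) :
    LS (fun a => (prm (e a) (x a) (y a) (T a) (p a)).adN (q a)) := by
  have h : LS (fun z => (Nat.unpair (Nat.unpair (e z)).1).2) := by fun_prop
  exact ls_fB 0 hx hT h hq

theorem ls_blN (he : LS e) (hx : LS x) (hT : LS T) {q : α → ℕ} (hq : LS q) :
    LS (fun a => (prm (e a) (x a) (y a) (T a) (p a)).blN (q a)) := by
  have h : LS (fun z => (Nat.unpair (Nat.unpair (e z)).2).1) := by fun_prop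
  exact ls_fB 2 hx hT h hq

theorem ls_rdg (he : LS e) (hx : LS x) (hT : LS T) {q : α → ℕ} (hq : LS q) :
    LS (fun a => (prm (e a) (x a) (y a) (T a) (p a)).rdg (q a)) :=
  ls_accN (ls_blN he hx hT hq)

theorem ls_inN (he : LS e) (hx : LS x) (hy : LS y) (hT : LS T) {q v : α → ℕ} (hq : LS q)
    (hv : LS v) :
    LS (fun a => (prm (e a) (x a) (y a) (T a) (p a)).inN (q a) (v a)) := by
  have hb := ls_bvalN (ls_adN (y := y) (p := p) he hx hT hq)
  exact LS.catN (LS.sdN hq) (LS.catN (ls_lwN (LS.letN hx hb)) (LS.catN (ls_lwN (LS.letN hy hb)) hv))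

theorem ls_nxN (he : LS e) (hx : LS x) (hy : LS y) (hT : LS T) {q v : α → ℕ} (hq : LS q)
    (hv : LS v) :
    LS (fun a => (prm (e a) (x a) (y a) (T a) (p a)).nxN (q a) (v a)) := by
  have h : LS (fun z => (Nat.unpair (Nat.unpair (Nat.unpair (e z)).2).2).1) := by fun_prop
  have hu := ls_inN (p := p) he hx hy hT hq
    (LS.ifz (ls_rdg (y := y) (p := p) he hx hT hq) (LS.const 1) hv)
  exact LS.ifz (ls_accN hq) (LS.ifz (ls_adN (y := y) (p := p) he hx hT hq) (LS.const 0)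
    (LS.ifz (ls_blN (y := y) (p := p) he hx hT hq) (LS.const 0) (ls_fB 0 hx hT h hu)))
    (LS.capN (ls_bT 0 (LS.log2 hx) hT) hq)

theorem ls_wrN (he : LS e) (hx : LS x) (hT : LS T) {r u c : α → ℕ} (hr : LS r)
    (hu : LS u) (hc : LS c) :
    LS (fun a => (prm (e a) (x a) (y a) (T a) (p a)).wrN (r a) (u a) (c a)) := by
  have h : LS (fun z => (Nat.unpair (Nat.unpair (Nat.unpair (e z)).2).2).2) := by fun_prop
  exact ls_fB 1 hx hT h (LS.catN (LS.sdN hr) (LS.catN (LS.sdN hu) hc))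

theorem ls_rdN (he : LS e) (hx : LS x) (hT : LS T) {q : α → ℕ} (hq : LS q) :
    LS (fun a => (prm (e a) (x a) (y a) (T a) (p a)).rdN (q a)) :=
  LS.ifz (ls_rdg he hx hT hq) (LS.const 0) (ls_blN he hx hT hq)

theorem ls_stop (he : LS e) (hx : LS x) (hT : LS T) {q : α → ℕ} (hq : LS q) :
    LS (fun a => (prm (e a) (x a) (y a) (T a) (p a)).stop (q a)) :=
  LS.add (ls_accN hq) (ls_rdg he hx hT hq)

theorem ls_s0 (he : LS e) (hx : LS x) (hT : LS T) (hp : LS p) :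
    LS (fun a => (prm (e a) (x a) (y a) (T a) (p a)).s0) := by
  have h : LS (fun z => (Nat.unpair (Nat.unpair (e z)).1).1) := by fun_prop
  exact ls_fB 0 hx hT h hp

theorem ls_sil (he : LS e) (hx : LS x) (hy : LS y) (hT : LS T) (hp : LS p) {q i : α → ℕ}
    (hq : LS q) (hi : LS i) :
    LS (fun a => (prm (e a) (x a) (y a) (T a) (p a)).sil (q a) (i a)) := by
  refine LS.nrec (G := q) (N := i) (C := fun a => q a + CR (x a))
    (K := fun a _ r => ifz ((prm (e a) (x a) (y a) (T a) (p a)).stop r)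
      ((prm (e a) (x a) (y a) (T a) (p a)).nxN r 1) r) hq hi (LS.add hq (LS_CR hx)) ?_ ?_
  · have he' : LS (fun z : α × ℕ × ℕ => e z.1) := LS.comp he LS.fst
    have hx' : LS (fun z : α × ℕ × ℕ => x z.1) := LS.comp hx LS.fst
    have hy' : LS (fun z : α × ℕ × ℕ => y z.1) := LS.comp hy LS.fst
    have hT' : LS (fun z : α × ℕ × ℕ => T z.1) := LS.comp hT LS.fst
    have hr : LS (fun z : α × ℕ × ℕ => z.2.2) := by fun_prop
    exact LS.ifz (ls_stop (y := fun z : α × ℕ × ℕ => y z.1) (p := fun z : α × ℕ × ℕ => p z.1)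
        he' hx' hT' hr)
      (ls_nxN (p := fun z : α × ℕ × ℕ => p z.1) he' hx' hy' hT' hr (LS.const 1)) hr
  · intro a j _
    refine (sil_le (prm (e a) (x a) (y a) (T a) (p a)) (q a) j).trans ?_
    refine Nat.add_le_add_left (pow_le_CR ?_) _
    have h := bT_le (Nat.log 2 (x a)) (T a) 0
    show bT (Nat.log 2 (x a)) (T a) 0 + 1 ≤ _
    omega

theorem ls_wil (he : LS e) (hx : LS x) (hy : LS y) (hT : LS T) (hp : LS p) {q u c i : α → ℕ}
    (hq : LS q) (hu : LS u) (hc : LS c) (hi : LS i) :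
    LS (fun a => (prm (e a) (x a) (y a) (T a) (p a)).wil (q a) (u a) (c a) (i a)) := by
  refine LS.nrec (G := c) (N := i) (C := fun a => c a + CR (x a))
    (K := fun a j r => ifz ((prm (e a) (x a) (y a) (T a) (p a)).stop
        ((prm (e a) (x a) (y a) (T a) (p a)).sil (q a) j))
      ((prm (e a) (x a) (y a) (T a) (p a)).wrN
        ((prm (e a) (x a) (y a) (T a) (p a)).sil (q a) (j + 1)) (u a) r) r)
    hc hi (LS.add hc (LS_CR hx)) ?_ ?_
  · have he' : LS (fun z : α × ℕ × ℕ => e z.1) := LS.comp he LS.fst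
    have hx' : LS (fun z : α × ℕ × ℕ => x z.1) := LS.comp hx LS.fst
    have hy' : LS (fun z : α × ℕ × ℕ => y z.1) := LS.comp hy LS.fst
    have hT' : LS (fun z : α × ℕ × ℕ => T z.1) := LS.comp hT LS.fst
    have hp' : LS (fun z : α × ℕ × ℕ => p z.1) := LS.comp hp LS.fst
    have hq' : LS (fun z : α × ℕ × ℕ => q z.1) := LS.comp hq LS.fst
    have hu' : LS (fun z : α × ℕ × ℕ => u z.1) := LS.comp hu LS.fst
    have hj : LS (fun z : α × ℕ × ℕ => z.2.1) := by fun_prop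
    have hr : LS (fun z : α × ℕ × ℕ => z.2.2) := by fun_prop
    have h1 := ls_sil he' hx' hy' hT' hp' hq' hj
    have h2 := ls_sil he' hx' hy' hT' hp' hq' (LS.add hj (LS.const 1))
    exact LS.ifz (ls_stop (y := fun z : α × ℕ × ℕ => y z.1) (p := fun z : α × ℕ × ℕ => p z.1)
        he' hx' hT' h1)
      (ls_wrN (y := fun z : α × ℕ × ℕ => y z.1) (p := fun z : α × ℕ × ℕ => p z.1)
        he' hx' hT' h2 hu' hr) hr
  · intro a j _
    refine (wil_le (prm (e a) (x a) (y a) (T a) (p a)) (q a) (u a) (c a) j).trans ?_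
    refine Nat.add_le_add_left (pow_le_CR ?_) _
    have h := bT_le (Nat.log 2 (x a)) (T a) 1
    show bT (Nat.log 2 (x a)) (T a) 1 + 1 ≤ _
    omega

end

theorem lsp : LSP_stmt := by
  intro α _ e x y T p he hx hy hT hp
  have hn : LS (fun z => Nat.log 2 (x z)) := LS.log2 hx
  have ho := ls_oT hn hT
  have hg := ls_gT hn hT
  -- the contexts with one, two and four numbers
  have e1 : LS (fun z : α × ℕ => e z.1) := LS.comp he LS.fst
  have x1 : LS (fun z : α × ℕ => x z.1) := LS.comp hx LS.fst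
  have y1 : LS (fun z : α × ℕ => y z.1) := LS.comp hy LS.fst
  have T1 : LS (fun z : α × ℕ => T z.1) := LS.comp hT LS.fst
  have p1 : LS (fun z : α × ℕ => p z.1) := LS.comp hp LS.fst
  have u1 : LS (fun z : α × ℕ => z.2) := LS.snd
  have e2 : LS (fun z : α × ℕ × ℕ => e z.1) := LS.comp he LS.fst
  have x2 : LS (fun z : α × ℕ × ℕ => x z.1) := LS.comp hx LS.fst
  have y2 : LS (fun z : α × ℕ × ℕ => y z.1) := LS.comp hy LS.fst
  have T2 : LS (fun z : α × ℕ × ℕ => T z.1) := LS.comp hT LS.fst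
  have p2 : LS (fun z : α × ℕ × ℕ => p z.1) := LS.comp hp LS.fst
  have q2 : LS (fun z : α × ℕ × ℕ => z.2.1) := by fun_prop
  have v2 : LS (fun z : α × ℕ × ℕ => z.2.2) := by fun_prop
  have e4 : LS (fun z : α × ℕ × ℕ × ℕ × ℕ => e z.1) := LS.comp he LS.fst
  have x4 : LS (fun z : α × ℕ × ℕ × ℕ × ℕ => x z.1) := LS.comp hx LS.fst
  have y4 : LS (fun z : α × ℕ × ℕ × ℕ × ℕ => y z.1) := LS.comp hy LS.fst
  have T4 : LS (fun z : α × ℕ × ℕ × ℕ × ℕ => T z.1) := LS.comp hT LS.fst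
  have p4 : LS (fun z : α × ℕ × ℕ × ℕ × ℕ => p z.1) := LS.comp hp LS.fst
  have q4 : LS (fun z : α × ℕ × ℕ × ℕ × ℕ => z.2.1) := by fun_prop
  have v4 : LS (fun z : α × ℕ × ℕ × ℕ × ℕ => z.2.2.1) := by fun_prop
  have u4 : LS (fun z : α × ℕ × ℕ × ℕ × ℕ => z.2.2.2.1) := by fun_prop
  have c4 : LS (fun z : α × ℕ × ℕ × ℕ × ℕ => z.2.2.2.2) := by fun_prop
  exact
    { s := LS.add (ls_bT 0 hn hT) (LS.const 1)
      a := LS.add (ls_bT 1 hn hT) (LS.const 1)
      ν := LS.add (ls_bT 2 hn hT) (LS.const 1)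
      E := LS.ifz ho (LS.const 1) hg
      G := LS.ifz ho (LS.const 1) hg
      K := LS.ifz ho (LS.const 0) (ls_kT hn hT)
      A := ls_rdN (y := fun z : α × ℕ => y z.1) (p := fun z : α × ℕ => p z.1) e1 x1 T1 u1
      N := ls_sil e2 x2 y2 T2 p2 (ls_nxN (p := fun z : α × ℕ × ℕ => p z.1) e2 x2 y2 T2 q2 v2)
        (ls_pB 0 x2 T2)
      W := by
        have h1 := ls_nxN (p := fun z : α × ℕ × ℕ × ℕ × ℕ => p z.1) e4 x4 y4 T4 q4 v4
        have h2 := ls_wrN (y := fun z : α × ℕ × ℕ × ℕ × ℕ => y z.1)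
          (p := fun z : α × ℕ × ℕ × ℕ × ℕ => p z.1) e4 x4 T4 h1 u4 c4
        exact LS.capN (ls_bT 1 (LS.log2 x4) T4) (ls_wil e4 x4 y4 T4 p4 h1 u4
          (LS.ifz (ls_accN q4) h2 c4) (ls_pB 0 x4 T4))
      q0 := ls_sil he hx hy hT hp (ls_s0 (y := y) he hx hT hp) (ls_pB 0 hx hT)
      M0 := ls_wil e1 x1 y1 T1 p1 (ls_s0 (y := fun z : α × ℕ => y z.1) e1 x1 T1 p1) u1
        (LS.const 1) (ls_pB 0 x1 T1)
      bd := ls_CT hx
      ok := fun z => by
        have h1 : 0 < gT (Nat.log 2 (x z)) (T z) := Nat.succ_pos _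
        have h2 : 0 < ifz (oT (Nat.log 2 (x z)) (T z)) 1 (gT (Nat.log 2 (x z)) (T z)) := by
          unfold ifz
          split_ifs
          · exact Nat.one_pos
          · exact h1
        exact mach_ok _ h2 h2
      hs := fun z => by
        show 2 ^ (bT (Nat.log 2 (x z)) (T z) 0 + 1) ≤ CT (x z)
        have h := bT_le (Nat.log 2 (x z)) (T z) 0
        exact two_pow_CT (by omega)
      ha := fun z => by
        show 2 ^ (bT (Nat.log 2 (x z)) (T z) 1 + 1) ≤ CT (x z)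
        have h := bT_le (Nat.log 2 (x z)) (T z) 1
        exact two_pow_CT (by omega) }

end Pool.Agent.Helper56.BR
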